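import Pool.Agent.H1.ZU.Stm

/-! M6: the theorem from real data. -/

open Polynomial

namespace Pool.Agent.H14.ZU

open Pool.H1.ZU

/-- the roots of `X ^ 2 - X + y`, `y > 1/4` -/
lemma quad_root {y : ℝ} (hy : 1 / 4 < y) {t : ℂ} (h : t ^ 2 - t + (y : ℂ) = 0) :
    t = ⟨1 / 2, Real.sqrt (y - 1 / 4)⟩ ∨ t = (starRingEnd ℂ) ⟨1 / 2, Real.sqrt (y - 1 / 4)⟩ := by
  set b : ℂ := ⟨1 / 2, Real.sqrt (y - 1 / 4)⟩ with hb
  have hs : Real.sqrt (y - 1 / 4) ^ 2 = y - 1 / 4 := Real.sq_sqrt (by linarith)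
  have h1 : b + (starRingEnd ℂ) b = 1 := by
    apply Complex.ext <;> simp [hb]
    norm_num
  have h2 : b * (starRingEnd ℂ) b = (y : ℂ) := by
    rw [Complex.mul_conj, Complex.normSq_apply, hb]
    congr 1
    simp only
    nlinarith [hs]
  have h3 : (t - b) * (t - (starRingEnd ℂ) b) = 0 := by
    have : (t - b) * (t - (starRingEnd ℂ) b) = t ^ 2 - t * (b + (starRingEnd ℂ) b) +
        b * (starRingEnd ℂ) b := by ring
    rw [this, h1, h2, mul_one, h]
  rcases mul_eq_zero.1 h3 with h4 | h4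
  · left; exact sub_eq_zero.1 h4
  · right; exact sub_eq_zero.1 h4

lemma y1_gt : (1 : ℝ) / 4 < y1 := by
  unfold y1
  have : Real.sqrt 5 < 5 / 2 := by
    rw [show (5 : ℝ) / 2 = Real.sqrt ((5 / 2) ^ 2) from (Real.sqrt_sq (by norm_num)).symm]
    exact Real.sqrt_lt_sqrt (by norm_num) (by norm_num)
  linarith

lemma y3_gt : (1 : ℝ) / 4 < y3 := by
  unfold y3
  have := Real.sqrt_nonneg 5
  linarith

lemma N10_fac (t : ℂ) : aeval t N10 = (t ^ 2 - t + (y1 : ℂ)) * (t ^ 2 - t + (y3 : ℂ)) := by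
  have h1 : y1 + y3 = 3 := by unfold y1 y3; ring
  have h2 : y1 * y3 = 1 := by
    unfold y1 y3
    have : Real.sqrt 5 ^ 2 = 5 := Real.sq_sqrt (by norm_num)
    nlinarith [this]
  have h1' : (y1 : ℂ) + (y3 : ℂ) = 3 := by
    rw [← Complex.ofReal_add, h1]; norm_num
  have h2' : (y1 : ℂ) * (y3 : ℂ) = 1 := by
    rw [← Complex.ofReal_mul, h2]; norm_num
  have e : (t ^ 2 - t + (y1 : ℂ)) * (t ^ 2 - t + (y3 : ℂ)) = (t ^ 2 - t) ^ 2 +
      ((y1 : ℂ) + y3) * (t ^ 2 - t) + (y1 : ℂ) * y3 := by ring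
  rw [e, h1', h2']
  simp only [N10, map_add, map_sub, map_mul, map_pow, aeval_X, map_one, map_ofNat]
  ring

lemma aeval_conj (G : ℝ[X]) (t : ℂ) : aeval ((starRingEnd ℂ) t) G = (starRingEnd ℂ) (aeval t G) := by
  rw [Polynomial.aeval_conj]

/-- value of an integer polynomial -/
lemma ev_ri (f : ℤ[X]) (z : ℂ) : ev (ri f) z = aeval (z - z ^ 2) f := by
  unfold ev ri
  rw [aeval_def, eval₂_map, aeval_def]
  congr 1

lemma aeval_real_eval (G : ℝ[X]) (x : ℝ) : aeval (x : ℂ) G = ((G.eval x : ℝ) : ℂ) := by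
  have := Polynomial.aeval_algebraMap_apply ℂ x G
  simpa using this

/-- no common zero -/
lemma no_common {a b c : ℕ} {G : ℝ[X]} (h0 : 1 ≤ |G.eval 0|) (h1 : 1 ≤ |G.eval 1|)
    (hb : 1 ≤ ‖aeval b1 G‖ * ‖aeval b3 G‖) (z : ℂ)
    (hs : ev (ri (X ^ a * (X - 1) ^ b * N10 ^ c)) z = 0) (hG : ev G z = 0) : False := by
  rw [ev_ri] at hs
  unfold ev at hG
  set t : ℂ := z - z ^ 2 with ht
  simp only [map_mul, map_pow, map_sub, aeval_X, map_one] at hs
  rcases mul_eq_zero.1 hs with hs1 | hs1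
  · rcases mul_eq_zero.1 hs1 with hs2 | hs2
    · have ht0 : t = 0 := by
        by_contra h
        exact pow_ne_zero _ h hs2
      rw [ht0] at hG
      have := aeval_real_eval G 0
      rw [Complex.ofReal_zero, hG] at this
      have h3 : G.eval 0 = 0 := by exact_mod_cast this.symm
      rw [h3] at h0
      norm_num at h0
    · have ht0 : t - 1 = 0 := by
        by_contra h
        exact pow_ne_zero _ h hs2
      rw [sub_eq_zero.1 ht0] at hG
      have := aeval_real_eval G 1
      rw [Complex.ofReal_one, hG] at this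
      have h3 : G.eval 1 = 0 := by exact_mod_cast this.symm
      rw [h3] at h1
      norm_num at h1
  · have hN : aeval t N10 = 0 := by
      by_contra h
      exact pow_ne_zero _ h hs1
    rw [N10_fac] at hN
    have hbad : aeval b1 G = 0 ∨ aeval b3 G = 0 := by
      rcases mul_eq_zero.1 hN with h | h
      · left
        rcases quad_root y1_gt h with h | h
        · rw [← hG, h]; rfl
        · rw [h, aeval_conj] at hG
          exact (map_eq_zero _).1 hG
      · right
        rcases quad_root y3_gt h with h | h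
        · rw [← hG, h]; rfl
        · rw [h, aeval_conj] at hG
          exact (map_eq_zero _).1 hG
    rcases hbad with h | h <;> rw [h] at hb <;> norm_num at hb

lemma ev_cont (G : ℝ[X]) : Continuous (fun z => ev G z) := by
  unfold ev
  fun_prop

/-- elementary growth: `log (C (2 K (N+1) + 1)) <= ε N + c` for large `N` -/
lemma growth (C K ε c : ℝ) (hC : 0 < C) (hK : 0 < K) (hε : 0 < ε) :
    ∃ N : ℕ, Real.log (C * (2 * (K * (N + 1)) + 1)) ≤ ε * N + c := by
  have h1 : Filter.Tendsto (fun N : ℕ => ε * (N : ℝ) + c - Real.log (C * (2 * (K * ((N : ℝ) + 1)) + 1)))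
      Filter.atTop Filter.atTop := by
    -- log x <= δ x + const
    have key : ∀ N : ℕ, Real.log (C * (2 * (K * ((N : ℝ) + 1)) + 1)) ≤
        ε / 2 * N + (ε / 2 + ε / (4 * K) - 1 - Real.log (ε / (4 * (C * K)))) := by
      intro N
      have hN : (0 : ℝ) ≤ N := Nat.cast_nonneg N
      set x : ℝ := C * (2 * (K * ((N : ℝ) + 1)) + 1) with hx
      have hxp : 0 < x := by positivity
      set d : ℝ := ε / (4 * (C * K)) with hd
      have hdp : 0 < d := by positivity
      have h2 : Real.log (d * x) ≤ d * x - 1 := Real.log_le_sub_one_of_pos (by positivity)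
      rw [Real.log_mul hdp.ne' hxp.ne'] at h2
      have h3 : d * x = ε / 2 * N + ε / 2 + ε / (4 * K) := by
        rw [hd, hx]
        field_simp
        ring
      linarith
    have h4 : Filter.Tendsto (fun N : ℕ => ε / 2 * (N : ℝ) +
        (c - (ε / 2 + ε / (4 * K) - 1 - Real.log (ε / (4 * (C * K))))))
        Filter.atTop Filter.atTop := by
      apply Filter.tendsto_atTop_add_const_right
      exact Filter.Tendsto.const_mul_atTop (by linarith) tendsto_natCast_atTop_atTop
    refine Filter.tendsto_atTop_mono (fun N => ?_) h4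
    have := key N
    linarith
  obtain ⟨N, hN⟩ := (h1.eventually_ge_atTop 0).exists
  exact ⟨N, by linarith⟩

theorem INF (hC : S_COV) (hG : S_GEN) (hA : S_ALPHA) (hM : S_MAH) : S_INF := by
  intro a b c k hk habc G hdeg hlead h0 h1 hb L hL
  set s : ℝ[X] := ri (X ^ a * (X - 1) ^ b * N10 ^ c) with hs
  -- the majorant
  set W : ℂ → ℝ := fun z => ‖ev s z‖ ^ 2 + ‖ev G z‖ ^ 2 with hW
  set E : ℂ → ℝ := fun z => Real.sqrt (W z) with hE
  have hWc : Continuous W := by
    have e1 := ev_cont s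
    have e2 := ev_cont G
    simp only [hW]
    fun_prop
  have hW0 : ∀ z, 0 ≤ W z := fun z => by simp only [hW]; positivity
  have hWpos : ∀ z : ℂ, 0 < W z := by
    intro z
    rcases (hW0 z).lt_or_eq with h | h
    · exact h
    · exfalso
      have e1 : ‖ev s z‖ ^ 2 = 0 := by
        have := sq_nonneg ‖ev s z‖
        have := sq_nonneg ‖ev G z‖
        simp only [hW] at h
        linarith
      have e2 : ‖ev G z‖ ^ 2 = 0 := by
        have := sq_nonneg ‖ev s z‖
        have := sq_nonneg ‖ev G z‖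
        simp only [hW] at h
        linarith
      have e1' : ev s z = 0 := by simpa using e1
      have e2' : ev G z = 0 := by simpa using e2
      exact no_common h0 h1 hb z e1' e2'
  have hEc : Continuous E := hWc.sqrt
  have hEpos : ∀ z : ℂ, 0 < E z := fun z => Real.sqrt_pos.2 (hWpos z)
  have hsE : ∀ z : ℂ, ‖z‖ = 1 → ‖ev s z‖ ≤ E z := by
    intro z _
    apply Real.le_sqrt_of_sq_le
    simp only [hW]
    have := sq_nonneg ‖ev G z‖
    linarith
  have hGE : ∀ z : ℂ, ‖z‖ = 1 → ‖ev G z‖ ≤ E z := by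
    intro z _
    apply Real.le_sqrt_of_sq_le
    simp only [hW]
    have := sq_nonneg ‖ev s z‖
    linarith
  obtain ⟨K, hK, hcov⟩ := hC a b c k hk habc G hdeg hlead h0 h1 hb E hsE hGE
  set I : ℝ := Real.circleAverage (fun z => Real.log (W z)) 0 1 with hI
  have hIL : I < 2 * L * k := hL
  -- infinite
  intro hfin
  set F : Finset ℂ := hfin.toFinset with hF
  set A : Finset ℂ := F.image (fun α => α - α ^ 2) with hAdef
  set C0 : ℝ := ((A.card : ℝ) + 2) ^ 2 with hC0
  have hC0pos : 0 < C0 := by positivity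
  set ε : ℝ := L * k - I / 2 with hε
  have hεpos : 0 < ε := by rw [hε]; linarith
  obtain ⟨N, hN⟩ := growth C0 K ε (L * k) hC0pos hK hεpos
  -- minimum of E^N on the circle
  have hcomp : IsCompact (Metric.sphere (0 : ℂ) 1) := isCompact_sphere 0 1
  have hne : (Metric.sphere (0 : ℂ) 1).Nonempty := ⟨1, by simp⟩
  obtain ⟨z0, hz0, hmin⟩ := hcomp.exists_isMinOn hne ((hEc.pow N).continuousOn)
  set δ : ℝ := E z0 ^ N with hδ
  have hδpos : 0 < δ := pow_pos (hEpos z0) N
  have hδmin : ∀ z : ℂ, ‖z‖ = 1 → δ ≤ E z ^ N := fun z hz => hmin (by simpa using hz)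
  have hn : 0 < k * (N + 1) := Nat.mul_pos hk (Nat.succ_pos N)
  obtain ⟨q, hqdeg, hqA, hqb⟩ := hG (k * (N + 1)) (fun z => K * (N + 1) * E z ^ N)
    (fun z _ => by have := hEpos z; positivity) (hcov N) δ hδpos A
  set D : ℝ := C0 * (2 * (K * (N + 1)) + 1) with hD
  have hDpos : 0 < D := by positivity
  have hq0 : q ≠ 0 := by
    intro h
    rw [h, natDegree_zero] at hqdeg
    omega
  have hU : ∀ z : ℂ, ‖z‖ = 1 → ‖ev (ri q) z‖ ≤ D * E z ^ N := by
    intro z hz
    refine (hqb z hz).trans ?_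
    have e1 := hδmin z hz
    have e2 : 2 * (K * (N + 1) * E z ^ N) + δ ≤ (2 * (K * (N + 1)) + 1) * E z ^ N := by
      nlinarith
    calc ((A.card : ℝ) + 2) ^ 2 * (2 * (K * (N + 1) * E z ^ N) + δ)
        ≤ ((A.card : ℝ) + 2) ^ 2 * ((2 * (K * (N + 1)) + 1) * E z ^ N) :=
          mul_le_mul_of_nonneg_left e2 (by positivity)
      _ = D * E z ^ N := by rw [hD, hC0]; ring
  have hUc : Continuous (fun z => D * E z ^ N) := continuous_const.mul (hEc.pow N)
  have hmah := hM q hq0 (fun z => D * E z ^ N) hUc.continuousOn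
    (fun z _ => mul_pos hDpos (pow_pos (hEpos z) N)) hU
  -- the average
  have hWlogc : Continuous (fun z => Real.log (W z)) := hWc.log (fun z => (hWpos z).ne')
  have hav : Real.circleAverage (fun z => Real.log (D * E z ^ N)) 0 1 =
      Real.log D + N / 2 * I := by
    have e1 : (fun z => Real.log (D * E z ^ N)) =
        fun z => Real.log D + (N / 2 : ℝ) • Real.log (W z) := by
      funext z
      rw [Real.log_mul hDpos.ne' (pow_pos (hEpos z) N).ne', Real.log_pow]
      simp only [hE]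
      rw [Real.log_sqrt (hW0 z), smul_eq_mul]
      ring
    rw [e1, Real.circleAverage_fun_add (f₁ := fun _ => Real.log D)
      (f₂ := fun z => (N / 2 : ℝ) • Real.log (W z)) (circleIntegrable_const _ _ _)
      ((hWlogc.const_smul (N / 2 : ℝ)).continuousOn.circleIntegrable (by norm_num)),
      Real.circleAverage_const, Real.circleAverage_fun_smul, smul_eq_mul]
  rw [hav] at hmah
  have hfinal : Real.log ((q.comp (X - X ^ 2)).map (Int.castRingHom ℂ)).mahlerMeasure ≤
      L * ((k * (N + 1) : ℕ) : ℝ) := by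
    refine hmah.trans ?_
    push_cast
    have : Real.log D ≤ ε * N + L * k := hN
    rw [hε] at this
    nlinarith [this]
  obtain ⟨α, hαalg, hαh, hαA⟩ := hA q (k * (N + 1)) hn hqdeg L hfinal A hqA
  apply hαA
  rw [hAdef, Finset.mem_image]
  exact ⟨α, by rw [hF, Set.Finite.mem_toFinset]; exact ⟨hαalg, hαh⟩, rfl⟩

end Pool.Agent.H14.ZU
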