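import Pool.Agent.H1.ZU.Stm

/-! M4b: Mahler measure against a majorant on the circle. -/

open Polynomial Filter Metric

namespace Pool.Agent.H14.ZU

open Pool.H1.ZU

theorem MAH : S_MAH := by
  intro q hq U hUc hUpos hU
  set p : ℂ[X] := (q.comp (X - X ^ 2)).map (Int.castRingHom ℂ) with hp
  have hcomp : q.comp (X - X ^ 2) ≠ 0 := by
    intro h
    have hd : (X - X ^ 2 : ℤ[X]).natDegree = 2 := by
      have : (X - X ^ 2 : ℤ[X]) = -(X ^ 2) + X := by ring
      rw [this]
      compute_degree!
    rcases comp_eq_zero_iff.1 h with h | h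
    · exact hq h
    · have := congrArg natDegree h.2
      rw [hd, natDegree_C] at this
      norm_num at this
  have hp0 : p ≠ 0 := by
    rw [hp]
    exact (Polynomial.map_ne_zero_iff (RingHom.injective_int _)).2 hcomp
  have hval : ∀ z : ℂ, ‖eval z p‖ = ‖ev (ri q) z‖ := by
    intro z
    have e1 : eval z p = aeval (z - z ^ 2) q := by
      rw [hp, eval_map, eval₂_comp, aeval_def]
      congr 1
      simp
    have e2 : ev (ri q) z = aeval (z - z ^ 2) q := by
      unfold ev ri
      rw [aeval_def, eval₂_map, aeval_def]
      congr 1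
    rw [e1, e2]
  rw [← logMahlerMeasure_eq_log_MahlerMeasure, logMahlerMeasure_def]
  -- change the majorant at the zeros
  set f₂ : ℂ → ℝ := fun z => Real.log (U z) + (if eval z p = 0 then |Real.log (U z)| else 0) with hf₂
  have hco : (fun z => Real.log (U z)) =ᶠ[codiscreteWithin (sphere (0 : ℂ) |1|)] f₂ := by
    have hfin : {z : ℂ | eval z p = 0}.Finite := by
      apply (p.roots.toFinset.finite_toSet).subset
      intro z hz
      rw [Finset.mem_coe, Multiset.mem_toFinset, mem_roots hp0]
      exact hz
    have hmem := compl_finite_mem_codiscreteWithin (s := sphere (0 : ℂ) |1|) hfin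
    filter_upwards [hmem] with z hz
    have hz' : ¬ eval z p = 0 := hz
    simp only [hf₂, if_neg hz', add_zero]
  have hlogc : ContinuousOn (fun z => Real.log (U z)) (sphere 0 1) :=
    hUc.log (fun z hz => (hUpos z (by simpa using hz)).ne')
  have hint : CircleIntegrable (fun z => Real.log (U z)) 0 1 :=
    hlogc.circleIntegrable (by norm_num)
  have hint2 : CircleIntegrable f₂ 0 1 := hint.congr_codiscreteWithin hco
  rw [Real.circleAverage_congr_codiscreteWithin hco one_ne_zero]
  refine Real.circleAverage_mono ?_ hint2 ?_
  · exact p.intervalIntegrable_mahlerMeasure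
  · intro z hz
    have hz1 : ‖z‖ = 1 := by simpa using hz
    simp only [hf₂]
    split_ifs with h0
    · rw [h0, norm_zero, Real.log_zero]
      have := neg_abs_le (Real.log (U z))
      linarith
    · rw [add_zero]
      apply Real.log_le_log (norm_pos_iff.2 h0)
      rw [hval]
      exact hU z hz1

end Pool.Agent.H14.ZU
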